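import Pool.Agent.Q38.ESM.Glob
import Pool.Agent.Q247.EL.SIEVE

/-!
# Project ESM, job SYS, part 6: the system
-/

set_option autoImplicit false
set_option linter.unusedSectionVars false
set_option linter.unusedVariables false

namespace Pool.Agent.Q38.ESM

open NumberField IsDedekindDomain Finset
open Pool.Agent.Q161.ESM
open Pool.Agent.Q51.EL (pr Abv N1)
open Pool.Agent.Q161.EA (Un Nice S_MER)

section K

variable {K : Type} [Field K] [NumberField K] {V : Type} [AddCommGroup V]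
  [DistribMulAction (K ≃ₐ[ℚ] K) V] {ι : Type} {Lf : ι → Type} [∀ i, Field (Lf i)]
  {em : (i : ι) → Lf i →+* K} {rp : ι → V} [∀ i, NumberField (Lf i)]

/-- the local properties of the sieve at `l` -/
structure LP [Fintype V] [DecidableEq ι] (hR : Rp Lf em rp) {n : ι → ℕ}
    (bs : (i : ι) → Module.Basis (Fin (n i)) ℤ (𝓞 (Lf i)))
    (ev : ((i : ι) → 𝓞 (Lf i)) →+* (V → 𝓞 K)) (T : Set (V → 𝓞 K)) (l : ℕ)
    (Om : Set (Vm n l)) (U : (i : ι) → Set (Fin (n i) → ZMod l)) : Prop where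
  unit : ∀ y : Vm n l, (∀ i, y i ∈ U i) → y ∈ Om
  cU : ∀ i, (((U i)ᶜ.ncard : ℕ) : ℝ) * l ≤ Fintype.card V * (l : ℝ) ^ n i
  nm : ∀ (i : ι) (x : Fin (n i) → ℤ), (fun j => (x j : ZMod l)) ∉ U i →
    ∃ v : HeightOneSpectrum (𝓞 (Lf i)), Abv v l ∧ (∑ j, x j • bs i j) ∈ v.asIdeal
  n1 : ∀ i, N1 (Lf i) l ≤ Fintype.card V
  split : N1 K l ≠ Module.finrank ℚ K → N1 K l = 0
  dens : ∀ S : Finset ι, S.Nonempty → ∀ z : Vm n l, (∀ i, i ∉ S → z i ∈ U i) →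
    (({y | y ∈ Om ∧ ∀ i, i ∉ S → y i = z i}.ncard : ℕ) : ℝ) / (l : ℝ) ^ (∑ i ∈ S, n i) ≤
      1 - ((∑ i ∈ S, (N1 (Lf i) l : ℝ)) - 1) / l + (Fintype.card V : ℝ) ^ 2 / (l : ℝ) ^ 2
  good : N1 K l = Module.finrank ℚ K → ∀ S : Finset ι, S.Nonempty →
    ¬ IsSub {s : V | orbOf hR s ∈ S} → ∀ z : Vm n l, (∀ i, i ∉ S → z i ∈ U i) →
    (({y | y ∈ Om ∧ ∀ i, i ∉ S → y i = z i}.ncard : ℕ) : ℝ) / (l : ℝ) ^ (∑ i ∈ S, n i) ≤
      1 - ((∑ i ∈ S, (N1 (Lf i) l : ℝ)) - 1 + 1 / ((Fintype.card V : ℝ) + 1)) / l +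
        (Fintype.card V : ℝ) ^ 2 / (l : ℝ) ^ 2
  bad : N1 K l = Module.finrank ℚ K → ∀ S : Finset ι, S.Nonempty →
    IsSub {s : V | orbOf hR s ∈ S} → ∀ z : Vm n l, (∀ i, i ∉ S → z i ∈ U i) →
    (∀ y ∈ Om, (∀ i, i ∉ S → y i = z i) → y (orbOf hR 0) ∈ U (orbOf hR 0)) →
    (({y | y ∈ Om ∧ ∀ i, i ∉ S → y i = z i}.ncard : ℕ) : ℝ) / (l : ℝ) ^ (∑ i ∈ S, n i) ≤
      1 - ((∑ i ∈ S, (N1 (Lf i) l : ℝ)) - 1 + 1 / ((Fintype.card V : ℝ) + 1)) / l +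
        (Fintype.card V : ℝ) ^ 2 / (l : ℝ) ^ 2
  mem : ∀ x : Vc n, ev (fun i => ∑ j, x i j • bs i j) ∈ T → rd n l x ∈ Om
  chr : N1 K l = Module.finrank ℚ K → ∀ (S : Finset ι) (i0 : ι), i0 ∉ S → ∀ φ : V →+ ZMod 2,
    (∀ s, orbOf hR s ∈ S → φ s = 0) → φ (rp i0) ≠ 0 →
    ∃ ψ : 𝓞 (Lf i0) → ℝ, (∀ α β, ψ (α * β) = ψ α * ψ β) ∧ (∀ α, |ψ α| ≤ 1) ∧
      (∀ α β, (l : 𝓞 (Lf i0)) ∣ α - β → ψ α = ψ β) ∧
      (∃ u w' : 𝓞 (Lf i0), (l : 𝓞 (Lf i0)) ∣ u * w' - 1 ∧ ψ u = -1) ∧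
      (∀ α, Un l α → ψ α = 1 ∨ ψ α = -1) ∧
      ∀ z : Vc n, ∃ e : ℝ, (e = 1 ∨ e = -1) ∧ ∀ y : Fin (n i0) → ℤ, ψ (∑ j, y j • bs i0 j) = -e →
        (∀ y' ∈ Om, (∀ i, i ∉ S → y' i = rd n l (Function.update z i0 y) i) →
          y' (orbOf hR 0) ∈ U (orbOf hR 0)) ∨
        ∃ i, i ∉ S ∧ rd n l (Function.update z i0 y) i ∉ U i

theorem exists_LP [IsGalois ℚ K] [Fintype V] [Fintype ι] [DecidableEq ι] (hKEY : S_KEY) (hU : S_LCU)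
    (hT : S_LCT) (hRES : S_RES) (hN1F : S_N1F)
    (h2 : ∀ v : V, v + v = 0) (hsemi : Semi (K ≃ₐ[ℚ] K) V)
    (hinv : ∀ v : V, (∀ g : K ≃ₐ[ℚ] K, g • v = v) → v = 0) (hR : Rp Lf em rp)
    {ev : ((i : ι) → 𝓞 (Lf i)) →+* (V → 𝓞 K)} (hev : IsEv em rp ev) {n : ι → ℕ}
    (bs : (i : ι) → Module.Basis (Fin (n i)) ℤ (𝓞 (Lf i)))
    (hn : ∀ i, {t : V | ∃ g : K ≃ₐ[ℚ] K, g • rp i = t}.ncard = n i)
    (T : Set (V → 𝓞 K)) {l : ℕ} (hl : l.Prime) (hl2 : l ≠ 2)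
    (hfr : Squarefree (Ideal.span {(l : 𝓞 K)}) ∧
    (∃ w : HeightOneSpectrum (𝓞 K), Abv w l) ∧
    ∀ w : HeightOneSpectrum (𝓞 K), Abv w l →
      (∃ F : K ≃ₐ[ℚ] K, Fb w l F) ∧
      ∀ F : K ≃ₐ[ℚ] K, Fb w l F → ∃ f : ℕ, 0 < f ∧ Nat.card (𝓞 K ⧸ w.asIdeal) = l ^ f ∧ F ^ f = 1 ∧
        (N1 K l = Module.finrank ℚ K → F = 1 ∧ f = 1) ∧
        (N1 K l ≠ Module.finrank ℚ K → N1 K l = 0))
    (hloc : ∀ (w : HeightOneSpectrum (𝓞 K)) (F : K ≃ₐ[ℚ] K), Abv w l → Fb w l F → Loc w l F T) :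
    ∃ (Om : Set (Vm n l)) (U : (i : ι) → Set (Fin (n i) → ZMod l)), LP hR bs ev T l Om U := by
  obtain ⟨hsq, ⟨w, hw⟩, hall⟩ := hfr
  obtain ⟨⟨F, hF⟩, hFr⟩ := hall w hw
  obtain ⟨f, hf0, hcard, hFf, hsp, hnsp⟩ := hFr F hF
  obtain ⟨R, hinj, himg, hred, hcmp⟩ := hRES K V ι Lf em rp hR ev hev n bs l hl hsq w hw F hF
  have hn1 := hN1F K V ι Lf em rp hR l hl hsq w hw F hF
  have hlo := hloc w F hw hF
  have h : LD bs rp ev w l f F R := ⟨hl, hl2, hw, hcard, hFf, hinj, himg, hred, hcmp⟩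
  refine ⟨OmR T F R, UR rp R,
    { unit := h.unit hR T
      cU := h.cU hR
      nm := h.nm hev
      n1 := ?_
      split := hnsp
      dens := fun S hS z hz => (h.dens hKEY hU hT h2 hsemi hinv hR hlo hn hn1 S hS z hz).1
      good := fun hs S hS hbad z hz =>
        (h.dens hKEY hU hT h2 hsemi hinv hR hlo hn hn1 S hS z hz).2.1 (hsp hs).1 hbad
      bad := fun hs S hS hbad z hz hinc =>
        (h.dens hKEY hU hT h2 hsemi hinv hR hlo hn hn1 S hS z hz).2.2 (hsp hs).1 hbad hinc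
      mem := fun x hx => h.memT hlo x hx
      chr := fun hs S i0 hi0 φ hφ hφ0 =>
        h.chr hR hev hlo hn (hsp hs).1 (hsp hs).2 S i0 hi0 φ hφ hφ0 }⟩
  intro i
  rw [hn1 i]
  refine (Set.ncard_le_ncard (Set.subset_univ _) (Set.toFinite _)).trans ?_
  rw [Set.ncard_univ, Nat.card_eq_fintype_card]

end K

open Classical in
/-- the density of the primes which split completely -/
theorem mes_lemma (K : Type) [Field K] [NumberField K] (C : ℝ)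
    (hC : ∀ Y : ℝ, 3 ≤ Y → |∑ l ∈ pr Y, (N1 K l : ℝ) / l - Real.log (Real.log Y)| ≤ C) (B : ℕ)
    (hB : B ≠ 0)
    (hs : ∀ l : ℕ, l.Prime → ¬ l ∣ B → N1 K l ≠ Module.finrank ℚ K → N1 K l = 0) (P0 : Set ℕ)
    (hP0 : ∀ l, l ∈ P0 ↔ N1 K l = Module.finrank ℚ K) :
    ∃ A : ℝ, ∀ Y : ℝ, 3 ≤ Y →
      |∑ l ∈ (pr Y).filter (fun l => l ∈ P0), (1 : ℝ) / l -
        (1 / (Module.finrank ℚ K : ℝ)) * Real.log (Real.log Y)| ≤ A := by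
  obtain ⟨D, hD⟩ : ∃ D : ℝ, D = (Module.finrank ℚ K : ℝ) := ⟨_, rfl⟩
  have hD1 : 1 ≤ D := by
    rw [hD]
    exact_mod_cast (Module.finrank_pos (R := ℚ) (M := K))
  refine ⟨C + ∑ l ∈ B.primeFactors, (N1 K l : ℝ) / l, ?_⟩
  intro Y hY
  have h1 := hC Y hY
  rw [← hD]
  obtain ⟨X, hX⟩ : ∃ X : ℝ, X = ∑ l ∈ (pr Y).filter (fun l => l ∈ P0), (1 : ℝ) / l :=
    ⟨_, rfl⟩
  have h2 : ∑ l ∈ pr Y, (N1 K l : ℝ) / l = D * X +
      ∑ l ∈ (pr Y).filter (fun l => ¬ l ∈ P0), (N1 K l : ℝ) / l := by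
    rw [← Finset.sum_filter_add_sum_filter_not (pr Y) (fun l => l ∈ P0)]
    congr 1
    rw [hX, Finset.mul_sum]
    refine Finset.sum_congr rfl fun l hl => ?_
    have h3 : N1 K l = Module.finrank ℚ K := (hP0 l).1 (mem_filter.1 hl).2
    rw [h3, ← hD]
    ring
  have h4 : ∑ l ∈ (pr Y).filter (fun l => ¬ l ∈ P0), (N1 K l : ℝ) / l ≤
      ∑ l ∈ B.primeFactors, (N1 K l : ℝ) / l := by
    rw [← Finset.sum_filter_of_ne (p := fun l => l ∣ B)]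
    · refine Finset.sum_le_sum_of_subset_of_nonneg ?_ (fun _ _ _ => by positivity)
      intro l hl
      have h5 := mem_filter.1 hl
      have h6 := mem_filter.1 h5.1
      exact Nat.mem_primeFactors.2 ⟨(mem_filter.1 h6.1).2, h5.2, hB⟩
    · intro l hl hne
      by_contra hcon
      have h6 := mem_filter.1 hl
      have h7 := hs l (mem_filter.1 h6.1).2 hcon (fun hh => h6.2 ((hP0 l).2 hh))
      rw [h7] at hne
      simp at hne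
  have h5 : 0 ≤ ∑ l ∈ (pr Y).filter (fun l => ¬ l ∈ P0), (N1 K l : ℝ) / l :=
    Finset.sum_nonneg fun _ _ => by positivity
  rw [h2] at h1
  rw [← hX]
  have h6 : X - 1 / D * Real.log (Real.log Y) = (D * X - Real.log (Real.log Y)) / D := by
    field_simp
  rw [h6, abs_div, abs_of_pos (by linarith : (0:ℝ) < D)]
  have h7 := abs_le.1 h1
  have h8 : |D * X - Real.log (Real.log Y)| ≤ C + ∑ l ∈ B.primeFactors, (N1 K l : ℝ) / l := by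
    rw [abs_le]
    constructor <;> linarith
  have h9 : 0 ≤ |D * X - Real.log (Real.log Y)| := abs_nonneg _
  calc |D * X - Real.log (Real.log Y)| / D ≤ |D * X - Real.log (Real.log Y)| := div_le_self h9 hD1
    _ ≤ _ := h8

end Pool.Agent.Q38.ESM
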