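import Pool.Agent.Q161.ESM.Stm2

/-!
# Project ESM, job SYS, part 1: the count of the classes (abstract)
-/

set_option autoImplicit false
set_option linter.unusedSectionVars false
set_option linter.unusedVariables false

namespace Pool.Agent.Q38.ESM

open Finset
open Pool.Agent.Q161.ESM

section abs

variable {k V G ι : Type} [Field k] [Fintype k] [AddCommGroup V] [Fintype V] [DecidableEq V]
  [Group G] [DistribMulAction G V] [Fintype ι] [DecidableEq ι]

/-- abstract data at a prime -/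
structure Ab (n : ι → ℕ) (l f : ℕ) (F : G) (orb : V → ι) (R : Vm n l → V → k) (Om : Set (Vm n l)) :
    Prop where
  lp : l.Prime
  l2 : l ≠ 2
  card : Fintype.card k = l ^ f
  Ff : F ^ f = 1
  inj : Function.Injective R
  eqv : ∀ y s, R y (F • s) = R y s ^ l
  ob : ∀ (g : G) (s : V), orb (g • s) = orb s
  cmp : ∀ (y y' : Vm n l) (i : ι), y i = y' i → ∀ s, orb s = i → R y s = R y' s
  nn : ∀ i, (univ.filter (fun s => orb s = i)).card = n i
  om : ∀ y ∈ Om, (∀ s, R y s ≠ 0) ∨ ∃ t, R y t = 0 ∧ F • t = t ∧ ∀ s, s ≠ t → R y s ≠ 0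
  xi : ∀ t, ∃ ξ : (V →+ ZMod 2) → k, ∀ y ∈ Om, R y t = 0 → ∀ φ : V →+ ZMod 2,
    (∀ s, φ (F • s) = φ s) → (∏ s ∈ univ.filter (fun s => φ (s - t) ≠ 0), R y s) ^ ((l-1)/2) = ξ φ

theorem cnt (hU : S_LCU) (hT : S_LCT) (h2 : ∀ v : V, v + v = 0) {n : ι → ℕ} {l f : ℕ} {F : G}
    {orb : V → ι} {R : Vm n l → V → k} {Om : Set (Vm n l)} (h : Ab n l f F orb R Om) (S : Finset ι)
    (z : Vm n l) (J : Finset V)
    (hJ : ∀ y ∈ Om, (∀ i, i ∉ S → y i = z i) → ∀ t, R y t = 0 → t ∈ J)
    (hJ2 : ∀ t ∈ J, orb t ∈ S ∧ F • t = t) (M : ℝ) (hM : 0 < M)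
    (hNS : ∀ t ∈ J, M ≤ NS (fun s => F • s) ((univ.filter (fun s => orb s ∈ S) : Finset V) : Set V) t) :
    (({y | y ∈ Om ∧ ∀ i, i ∉ S → y i = z i}.ncard : ℕ) : ℝ) ≤
      (l : ℝ) ^ (univ.filter (fun s : V => orb s ∈ S)).card *
        (1 - (((univ.filter (fun s : V => orb s ∈ S)).filter (fun s => F • s = s)).card : ℝ) / l +
          (Fintype.card V : ℝ) ^ 2 / (l : ℝ) ^ 2) +
      J.card * ((l : ℝ) ^ ((univ.filter (fun s : V => orb s ∈ S)).card - 1) / M) := by
  classical
  set VS : Finset V := univ.filter (fun s => orb s ∈ S) with hVS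
  have hbij : Function.Bijective (fun s : V => F • s) := MulAction.bijective F
  have hst : ∀ s, s ∈ VS ↔ F • s ∈ VS := by
    intro s
    simp [hVS, h.ob]
  let A0 : Set (V → k) := {c : V → k | EqF l (fun s => F • s) c ∧ (∀ s, s ∉ VS → c s = R z s) ∧
    ∀ s ∈ VS, c s ≠ 0}
  have hA0 : ((A0.ncard : ℕ) : ℝ) ≤ (l : ℝ) ^ VS.card * (1 - ((VS.filter (fun s => F • s = s)).card : ℝ) / l +
        (Fintype.card V : ℝ) ^ 2 / (l : ℝ) ^ 2) :=
    hU k V l h.lp (fun s => F • s) hbij VS hst (R z)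
  choose ξ hξ using h.xi
  let A1 : V → Set (V → k) := fun t => {c : V → k | EqF l (fun s => F • s) c ∧
    (∀ s, s ∉ VS → c s = R z s) ∧ c t = 0 ∧ (∀ s, s ≠ t → c s ≠ 0) ∧
      ∀ φ : V →+ ZMod 2, (∀ s, φ (F • s) = φ s) →
        (∏ s ∈ univ.filter (fun s => φ (s - t) ≠ 0), c s) ^ ((l - 1) / 2) = ξ t φ}
  have hA1 : ∀ t ∈ J, (((A1 t).ncard : ℕ) : ℝ) ≤ (l : ℝ) ^ (VS.card - 1) / M := by
    intro t ht
    have hq := hT k V l f h.lp h.l2 h.card h2 (DistribSMul.toAddMonoidHom V F) hbij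
      (by
        intro s
        have e1 : ∀ m : ℕ, (⇑(DistribSMul.toAddMonoidHom V F))^[m] s = F ^ m • s := by
          intro m
          induction m with
          | zero => simp
          | succ m ih =>
            rw [Function.iterate_succ_apply', ih, pow_succ', mul_smul]
            rfl
        rw [e1, h.Ff, one_smul])
      VS hst (R z) t (by
        have := (hJ2 t ht).1
        simp [hVS, this]) (hJ2 t ht).2 (ξ t)
    have hq2 : (((A1 t).ncard : ℕ) : ℝ) * NS (fun s => F • s) (VS : Set V) t ≤ (l : ℝ) ^ (VS.card - 1) := hq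
    rw [le_div_iff₀ hM]
    refine le_trans ?_ hq2
    exact mul_le_mul_of_nonneg_left (hNS t ht) (Nat.cast_nonneg _)
  have hsub : R '' {y | y ∈ Om ∧ ∀ i, i ∉ S → y i = z i} ⊆ A0 ∪ ⋃ t ∈ J, A1 t := by
    rintro c ⟨y, ⟨hy1, hy2⟩, rfl⟩
    have hagree : ∀ s, s ∉ VS → R y s = R z s := by
      intro s hs
      have hs' : orb s ∉ S := by simpa [hVS] using hs
      exact h.cmp y z (orb s) (hy2 _ hs') s rfl
    have hE : EqF l (fun s => F • s) (R y) := fun s => h.eqv y s
    rcases h.om y hy1 with h0 | ⟨t, ht0, ht1, ht2⟩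
    · left
      exact ⟨hE, hagree, fun s _ => h0 s⟩
    · right
      simp only [Set.mem_iUnion]
      refine ⟨t, hJ y hy1 hy2 t ht0, hE, hagree, ht0, ht2, ?_⟩
      intro φ hφ
      exact hξ t y hy1 ht0 φ hφ
  have hc1 : {y | y ∈ Om ∧ ∀ i, i ∉ S → y i = z i}.ncard ≤ A0.ncard + ∑ t ∈ J, (A1 t).ncard := by
    rw [← Set.ncard_image_of_injective _ h.inj]
    refine le_trans (Set.ncard_le_ncard hsub (Set.toFinite _)) ?_
    refine le_trans (Set.ncard_union_le _ _) ?_
    refine Nat.add_le_add_left ?_ _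
    exact Finset.set_ncard_biUnion_le J A1
  have hc2 : (({y | y ∈ Om ∧ ∀ i, i ∉ S → y i = z i}.ncard : ℕ) : ℝ) ≤
      (A0.ncard : ℝ) + ∑ t ∈ J, ((A1 t).ncard : ℝ) := by exact_mod_cast hc1
  have hc3 : ∑ t ∈ J, ((A1 t).ncard : ℝ) ≤ J.card * ((l : ℝ) ^ (VS.card - 1) / M) := by
    have := Finset.sum_le_card_nsmul J (fun t => ((A1 t).ncard : ℝ)) _ hA1
    simpa [nsmul_eq_mul] using this
  linarith

theorem cardVS {n : ι → ℕ} {l f : ℕ} {F : G}
    {orb : V → ι} {R : Vm n l → V → k} {Om : Set (Vm n l)} (h : Ab n l f F orb R Om) (S : Finset ι) :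
    (univ.filter (fun s : V => orb s ∈ S)).card = ∑ i ∈ S, n i := by
  classical
  rw [Finset.card_eq_sum_card_fiberwise (f := orb) (t := S) (by intro s hs; simpa using hs)]
  refine Finset.sum_congr rfl fun i hi => ?_
  rw [← h.nn i]
  congr 1
  ext s
  simp only [mem_filter, mem_univ, true_and]
  constructor
  · exact fun h => h.2
  · intro h
    exact ⟨h ▸ hi, h⟩

/-- division of the bound by the number of all classes -/
theorem divl {l m : ℕ} (hl : 0 < l) (hm : 0 < m) (X N V2 j M : ℝ)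
    (hX : X ≤ (l : ℝ) ^ m * (1 - N / l + V2 / (l : ℝ) ^ 2) + j * ((l : ℝ) ^ (m - 1) / M)) :
    X / (l : ℝ) ^ m ≤ 1 - (N - j / M) / l + V2 / (l : ℝ) ^ 2 := by
  have hl' : (0 : ℝ) < l := by exact_mod_cast hl
  rw [div_le_iff₀ (by positivity)]
  refine hX.trans (le_of_eq ?_)
  obtain ⟨q, rfl⟩ : ∃ q, m = q + 1 := ⟨m - 1, by omega⟩
  simp only [Nat.add_sub_cancel, pow_succ]
  field_simp
  ring

/-- the three bounds -/
theorem densA (hKEY : S_KEY) (hU : S_LCU) (hT : S_LCT) (h2 : ∀ v : V, v + v = 0) (hsemi : Semi G V)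
    (hinv : ∀ v : V, (∀ g : G, g • v = v) → v = 0) {n : ι → ℕ} {l f : ℕ} {F : G}
    {orb : V → ι} {R : Vm n l → V → k} {Om : Set (Vm n l)} (h : Ab n l f F orb R Om)
    (hsurj : ∀ i, ∃ s, orb s = i) (S : Finset ι) (hS : S.Nonempty)
    (z : Vm n l) (hz : ∀ s, orb s ∉ S → R z s ≠ 0) :
    (({y | y ∈ Om ∧ ∀ i, i ∉ S → y i = z i}.ncard : ℕ) : ℝ) / (l : ℝ) ^ (∑ i ∈ S, n i) ≤
      1 - ((((univ.filter (fun s : V => orb s ∈ S)).filter (fun s => F • s = s)).card : ℝ) - 1) / l +
        (Fintype.card V : ℝ) ^ 2 / (l : ℝ) ^ 2 ∧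
    (F = 1 → ¬ IsSub ((univ.filter (fun s => orb s ∈ S) : Finset V) : Set V) →
      (({y | y ∈ Om ∧ ∀ i, i ∉ S → y i = z i}.ncard : ℕ) : ℝ) / (l : ℝ) ^ (∑ i ∈ S, n i) ≤
      1 - ((((univ.filter (fun s : V => orb s ∈ S)).filter (fun s => F • s = s)).card : ℝ) - 1 +
        1 / ((Fintype.card V : ℝ) + 1)) / l + (Fintype.card V : ℝ) ^ 2 / (l : ℝ) ^ 2) ∧
    (F = 1 → IsSub ((univ.filter (fun s => orb s ∈ S) : Finset V) : Set V) →
      (∀ y ∈ Om, (∀ i, i ∉ S → y i = z i) → R y 0 ≠ 0) →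
      (({y | y ∈ Om ∧ ∀ i, i ∉ S → y i = z i}.ncard : ℕ) : ℝ) / (l : ℝ) ^ (∑ i ∈ S, n i) ≤
      1 - ((((univ.filter (fun s : V => orb s ∈ S)).filter (fun s => F • s = s)).card : ℝ) - 1 +
        1 / ((Fintype.card V : ℝ) + 1)) / l + (Fintype.card V : ℝ) ^ 2 / (l : ℝ) ^ 2) := by
  classical
  have hl : 0 < l := h.lp.pos
  have hl' : (0 : ℝ) < l := by exact_mod_cast hl
  set VS : Finset V := univ.filter (fun s => orb s ∈ S) with hVS
  have hVne : 0 < VS.card := by
    obtain ⟨i, hi⟩ := hS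
    obtain ⟨s, hs⟩ := hsurj i
    exact Finset.card_pos.2 ⟨s, by simp [hVS, hs, hi]⟩
  have hcard := cardVS h S
  rw [← hcard]
  have hGst : ∀ g : G, ∀ s ∈ (VS : Set V), g • s ∈ (VS : Set V) := by
    intro g s hs
    simp only [hVS, coe_filter, mem_univ, true_and, Set.mem_ofPred_eq] at hs ⊢
    rw [h.ob]
    exact hs
  -- a type of an allowed class is a fixed point in VS
  have htyp : ∀ y ∈ Om, (∀ i, i ∉ S → y i = z i) → ∀ t, R y t = 0 → t ∈ VS ∧ F • t = t := by
    intro y hy hyz t ht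
    constructor
    · by_contra hcon
      have hs' : orb t ∉ S := by simpa [hVS] using hcon
      have := h.cmp y z (orb t) (hyz _ hs') t rfl
      exact hz t hs' (by rw [← this, ht])
    · rcases h.om y hy with h0 | ⟨t', ht0, ht1, ht2⟩
      · exact absurd ht (h0 t)
      · have : t = t' := by
          by_contra hne
          exact ht2 t hne ht
        rw [this]
        exact ht1
  have hkey := fun t (ht : t ∈ VS) (hf : F • t = t) => hKEY G V h2 hsemi hinv (VS : Set V) hGst F t ht hf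
  have hncard : {s | s ∈ (VS : Set V) ∧ F • s = s}.ncard = (VS.filter (fun s => F • s = s)).card := by
    rw [← Set.ncard_coe_finset]
    congr 1
    ext s
    simp
  have hcardle : VS.card ≤ Fintype.card V := Finset.card_le_univ _
  have hcardle' : (VS.card : ℝ) ≤ Fintype.card V := by exact_mod_cast hcardle
  have hVne' : (0 : ℝ) < VS.card := by exact_mod_cast hVne
  refine ⟨?_, ?_, ?_⟩
  · have hc := cnt hU hT h2 h S z (VS.filter (fun s => F • s = s))
      (by
        intro y hy hyz t ht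
        have := htyp y hy hyz t ht
        simp [this.1, this.2])
      (by
        intro t ht
        have h1 := (mem_filter.1 ht).1
        exact ⟨by simpa [hVS] using h1, (mem_filter.1 ht).2⟩)
      (max 1 ((VS.filter (fun s => F • s = s)).card : ℝ)) (by positivity)
      (by
        intro t ht
        have h1 := (mem_filter.1 ht).1
        have h2 := (mem_filter.1 ht).2
        have h3 := (hkey t h1 h2).1
        rw [hncard] at h3
        have h4 : 1 ≤ (VS.filter (fun s => F • s = s)).card := Finset.card_pos.2 ⟨t, ht⟩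
        rw [max_eq_right (by exact_mod_cast h4)]
        exact (Nat.cast_le (α := ℝ)).2 h3)
    have hd := divl hl hVne _ _ _ _ _ hc
    refine hd.trans ?_
    have h5 : ((VS.filter (fun s => F • s = s)).card : ℝ) / max 1 ((VS.filter (fun s => F • s = s)).card : ℝ) ≤ 1 := by
      rw [div_le_one (by positivity)]
      exact le_max_right _ _
    have h6 : ((((VS.filter (fun s => F • s = s)).card : ℝ)) - 1) / l ≤
      (((VS.filter (fun s => F • s = s)).card : ℝ) - ((VS.filter (fun s => F • s = s)).card : ℝ) /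
        max 1 ((VS.filter (fun s => F • s = s)).card : ℝ)) / l :=
      div_le_div_of_nonneg_right (by linarith) hl'.le
    linarith
  · intro hF hsub
    have hc := cnt hU hT h2 h S z VS
      (by
        intro y hy hyz t ht
        exact (htyp y hy hyz t ht).1)
      (by
        intro t ht
        exact ⟨by simpa [hVS] using ht, by rw [hF, one_smul]⟩)
      ((VS.card : ℝ) + 1) (by positivity)
      (by
        intro t ht
        have h3 := (hkey t ht (by rw [hF, one_smul])).2 (by intro s; rw [hF, one_smul]) hsub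
        rw [Set.ncard_coe_finset] at h3
        have h4 := (Nat.cast_le (α := ℝ)).2 h3
        rw [Nat.cast_add, Nat.cast_one] at h4
        exact h4)
    have hd := divl hl hVne _ _ _ _ _ hc
    refine hd.trans ?_
    have h5 : (VS.card : ℝ) / (VS.card + 1) ≤ 1 - 1 / ((Fintype.card V : ℝ) + 1) := by
      have : (VS.card : ℝ) / (VS.card + 1) = 1 - 1 / ((VS.card : ℝ) + 1) := by field_simp; ring
      rw [this]
      have := one_div_le_one_div_of_le (by positivity : (0:ℝ) < (VS.card : ℝ) + 1)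
        (by linarith : (VS.card : ℝ) + 1 ≤ (Fintype.card V : ℝ) + 1)
      linarith
    have h6 : ((((VS.filter (fun s => F • s = s)).card : ℝ)) - 1 + 1 / ((Fintype.card V : ℝ) + 1)) / l ≤
      (((VS.filter (fun s => F • s = s)).card : ℝ) - (VS.card : ℝ) / (VS.card + 1)) / l :=
      div_le_div_of_nonneg_right (by linarith) hl'.le
    linarith
  · intro hF hsub hinc
    have h0 : (0 : V) ∈ VS := by
      have := hsub.1
      exact_mod_cast this
    have hc := cnt hU hT h2 h S z (VS.erase 0)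
      (by
        intro y hy hyz t ht
        rw [mem_erase]
        refine ⟨?_, (htyp y hy hyz t ht).1⟩
        rintro rfl
        exact hinc y hy hyz ht)
      (by
        intro t ht
        have ht' := (mem_erase.1 ht).2
        exact ⟨by simpa [hVS] using ht', by rw [hF, one_smul]⟩)
      (VS.card : ℝ) hVne'
      (by
        intro t ht
        have ht' := (mem_erase.1 ht).2
        have h3 := (hkey t ht' (by rw [hF, one_smul])).1
        rw [hncard, hF] at h3
        simp only [one_smul, filter_true] at h3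
        rw [hF]
        simp only [one_smul]
        exact (Nat.cast_le (α := ℝ)).2 h3)
    have hd := divl hl hVne _ _ _ _ _ hc
    refine hd.trans ?_
    have h5 : ((VS.erase 0).card : ℝ) / (VS.card) ≤ 1 - 1 / ((Fintype.card V : ℝ) + 1) := by
      have h7 : ((VS.erase 0).card : ℝ) = VS.card - 1 := by
        rw [card_erase_of_mem h0, Nat.cast_sub hVne]
        simp
      rw [h7]
      have : ((VS.card : ℝ) - 1) / VS.card = 1 - 1 / (VS.card : ℝ) := by field_simp
      rw [this]
      have := one_div_le_one_div_of_le hVne'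
        (by linarith : (VS.card : ℝ) ≤ (Fintype.card V : ℝ) + 1)
      linarith
    have h6 : ((((VS.filter (fun s => F • s = s)).card : ℝ)) - 1 + 1 / ((Fintype.card V : ℝ) + 1)) / l ≤
      (((VS.filter (fun s => F • s = s)).card : ℝ) - ((VS.erase 0).card : ℝ) / (VS.card)) / l :=
      div_le_div_of_nonneg_right (by linarith) hl'.le
    linarith

end abs

end Pool.Agent.Q38.ESM
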