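import Pool.Agent.Q38.ESM.Loc3

/-!
# Project ESM, job SYS, part 5: global lemmas
-/

set_option autoImplicit false
set_option linter.unusedSectionVars false
set_option linter.unusedVariables false

namespace Pool.Agent.Q38.ESM

open NumberField IsDedekindDomain Finset
open Pool.Agent.Q161.ESM
open Pool.Agent.Q51.EL (pr Abv N1)
open Pool.Agent.Q161.EA (Un Nice)

section L

variable {L : Type} [Field L] [NumberField L]

theorem absNorm_le {α : 𝓞 L} {X : ℝ} (h : ∀ σ : L →+* ℂ, ‖σ (α : L)‖ ≤ X) :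
    ((Ideal.absNorm (Ideal.span {α}) : ℕ) : ℝ) ≤ X ^ Module.finrank ℚ L := by
  have h0 : ((Ideal.absNorm (Ideal.span {α}) : ℕ) : ℝ) = ∏ σ : L →ₐ[ℚ] ℂ, ‖σ (α : L)‖ := by
    rw [Ideal.absNorm_span_singleton, Nat.cast_natAbs, Int.cast_abs]
    have h1 : algebraMap ℚ ℂ (Algebra.norm ℚ (α : L)) = ∏ σ : L →ₐ[ℚ] ℂ, σ (α : L) :=
      Algebra.norm_eq_prod_embeddings ℚ ℂ (α : L)
    rw [← Algebra.coe_norm_int] at h1
    rw [← norm_prod, ← h1]
    simp
  rw [h0]
  calc ∏ σ : L →ₐ[ℚ] ℂ, ‖σ (α : L)‖ ≤ ∏ _σ : L →ₐ[ℚ] ℂ, X :=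
        Finset.prod_le_prod (fun _ _ => norm_nonneg _) (fun σ _ => h σ.toRingHom)
    _ = X ^ Module.finrank ℚ L := by
        rw [Finset.prod_const, Finset.card_univ, AlgHom.card]

theorem emb_bound {m : ℕ} (b : Module.Basis (Fin m) ℤ (𝓞 L)) : ∃ M : ℝ, 1 ≤ M ∧
    ∀ (x : Fin m → ℤ) (H : ℝ), 0 ≤ H → (∀ j, |(x j : ℝ)| ≤ H) →
      ∀ σ : L →+* ℂ, ‖σ ((∑ j, x j • b j : 𝓞 L) : L)‖ ≤ M * H := by
  refine ⟨1 + ∑ σ : L →+* ℂ, ∑ j, ‖σ (b j : L)‖, ?_, ?_⟩
  · have : 0 ≤ ∑ σ : L →+* ℂ, ∑ j, ‖σ (b j : L)‖ :=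
      Finset.sum_nonneg fun _ _ => Finset.sum_nonneg fun _ _ => norm_nonneg _
    linarith
  · intro x H hH hx σ
    have h1 : σ ((∑ j, x j • b j : 𝓞 L) : L) = ∑ j, (x j : ℂ) * σ (b j : L) := by
      simp
    rw [h1]
    have h2 : ∑ j, ‖σ (b j : L)‖ ≤ ∑ σ : L →+* ℂ, ∑ j, ‖σ (b j : L)‖ :=
      Finset.single_le_sum (f := fun σ : L →+* ℂ => ∑ j, ‖σ (b j : L)‖)
        (fun _ _ => Finset.sum_nonneg fun _ _ => norm_nonneg _) (mem_univ σ)
    calc ‖∑ j, (x j : ℂ) * σ (b j : L)‖ ≤ ∑ j, ‖(x j : ℂ) * σ (b j : L)‖ := norm_sum_le _ _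
      _ ≤ ∑ j, H * ‖σ (b j : L)‖ := by
          refine Finset.sum_le_sum fun j _ => ?_
          rw [norm_mul, Complex.norm_intCast]
          exact mul_le_mul_of_nonneg_right (hx j) (norm_nonneg _)
      _ = H * ∑ j, ‖σ (b j : L)‖ := (Finset.mul_sum _ _ _).symm
      _ ≤ H * (1 + ∑ σ : L →+* ℂ, ∑ j, ‖σ (b j : L)‖) := mul_le_mul_of_nonneg_left (by linarith) hH
      _ = _ := mul_comm _ _

theorem dvd_norm {v : HeightOneSpectrum (𝓞 L)} {l : ℕ} (hl : l.Prime) (hv : Abv v l) {α : 𝓞 L}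
    (hα : α ∈ v.asIdeal) : l ∣ Ideal.absNorm (Ideal.span {α}) := by
  have h1 : Ideal.absNorm v.asIdeal ∣ Ideal.absNorm (Ideal.span {α}) := by
    apply Ideal.absNorm_dvd_absNorm_of_le
    rw [Ideal.span_singleton_le_iff_mem]
    exact hα
  refine dvd_trans ?_ h1
  by_contra hcon
  have h2 : Nat.Coprime l (Ideal.absNorm v.asIdeal) := (Nat.Prime.coprime_iff_not_dvd hl).2 hcon
  have h3 : (1 : 𝓞 L) ∈ v.asIdeal := by
    have h4 := Nat.isCoprime_iff_coprime.2 h2
    obtain ⟨a, b, hab⟩ := h4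
    have h5 : ((a * l + b * (Ideal.absNorm v.asIdeal : ℕ) : ℤ) : 𝓞 L) = 1 := by
      rw [hab]; simp
    rw [← h5]
    push_cast
    exact Ideal.add_mem _ (Ideal.mul_mem_left _ _ hv) (Ideal.mul_mem_left _ _ (Ideal.absNorm_mem _))
  exact v.isPrime.ne_top ((Ideal.eq_top_iff_one _).2 h3)

theorem coord_inj {m : ℕ} (b : Module.Basis (Fin m) ℤ (𝓞 L)) :
    Function.Injective (fun x : Fin m → ℤ => ∑ j, x j • b j) := by
  intro x x' h
  funext j
  have h1 := congrArg (fun α => b.repr α j) h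
  simp only at h1
  rw [Module.Basis.repr_sum_self, Module.Basis.repr_sum_self] at h1
  exact h1

open Classical in
/-- the exceptional values in coordinates -/
theorem exc_coord (hE : S_EXC2) {m : ℕ} (hm : m = Module.finrank ℚ L)
    (bs : Module.Basis (Fin m) ℤ (𝓞 L)) (B : ℕ) (P0 : Set ℕ)
    (ψ : ℕ → 𝓞 L → ℝ) (K0 A c A0 : ℝ) (hB : B ≠ 0) (hc : 0 < c)
    (hmes : ∀ Y : ℝ, 3 ≤ Y →
      |∑ l ∈ (pr Y).filter (fun l => l ∈ P0), (1 : ℝ) / l - c * Real.log (Real.log Y)| ≤ A)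
    (hψ : ChP L B P0 ψ) : ∃ b C Y0 : ℝ, 0 < b ∧ 16 ≤ Y0 ∧
    ∀ (Y : ℝ) (ε : ℕ → ℝ) (E : Finset (Fin m → ℤ)), Y0 ≤ Y → (∀ l, ε l = 1 ∨ ε l = -1) →
    (∀ y ∈ E, Nice K0 (∑ j, y j • bs j) ∧ (∀ j, |(y j : ℝ)| ≤ Y) ∧
      ∃ Z : ℝ, Real.sqrt Y ≤ Z ∧ Real.log Z ≤ Real.log Y ^ (1 + b) ∧
        ∑ l ∈ (pr Z).filter (fun l : ℕ => Real.sqrt Y < (l : ℝ) ∧ ¬ l ∣ B ∧ l ∈ P0 ∧
          ψ l (∑ j, y j • bs j) = - ε l), (1 : ℝ) / l < b * Real.log (Real.log Z / Real.log Y) - C) →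
    (E.card : ℝ) * Real.log Y ^ A0 ≤ Y ^ m := by
  obtain ⟨M, hM1, hM⟩ := emb_bound bs
  obtain ⟨b, C', Y0', hb, hY0', hmain⟩ := hE L B P0 ψ K0 A c (|A0| + 1) hB hc hmes hψ
  refine ⟨b, |C'| + b * Real.log 2, max (max Y0' M) (Real.exp (M ^ m)), hb,
    le_trans hY0' (le_trans (le_max_left _ _) (le_max_left _ _)), ?_⟩
  intro Y ε E hY hε hEE
  have hY1 : Y0' ≤ Y := le_trans (le_trans (le_max_left _ _) (le_max_left _ _)) hY
  have hY2 : M ≤ Y := le_trans (le_trans (le_max_right _ _) (le_max_left _ _)) hY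
  have hY3 : Real.exp (M ^ m) ≤ Y := le_trans (le_max_right _ _) hY
  have hY16 : 16 ≤ Y := hY0'.trans hY1
  have hYpos : 0 < Y := by linarith
  have hMpos : 0 < M := by linarith
  have hlogY1 : 1 < Real.log Y := by
    rw [Real.lt_log_iff_exp_lt hYpos]
    exact Real.exp_one_lt_d9.trans (by linarith)
  have hlogM : Real.log M ≤ Real.log Y := Real.log_le_log hMpos hY2
  have hlogM0 : 0 ≤ Real.log M := Real.log_nonneg hM1
  have hMm : M ^ m ≤ Real.log Y := by
    rw [Real.le_log_iff_exp_le hYpos]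
    exact hY3
  have hlogMY : Real.log (M * Y) = Real.log M + Real.log Y := Real.log_mul hMpos.ne' hYpos.ne'
  have hYY : Y ≤ M * Y := by nlinarith
  have hlog2 : 0 < Real.log 2 := Real.log_pos (by norm_num)
  have hcard : (E.image (fun y : Fin m → ℤ => ∑ j, y j • bs j)).card = E.card :=
    Finset.card_image_of_injective _ (coord_inj bs)
  have hfin := hmain (M * Y) ε (E.image (fun y : Fin m → ℤ => ∑ j, y j • bs j)) (hY1.trans hYY) hε (by
    intro α hα
    obtain ⟨y, hy, rfl⟩ := Finset.mem_image.1 hα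
    obtain ⟨hn, hyY, Z, hZ1, hZ2, hZ3⟩ := hEE y hy
    refine ⟨hn, fun σ => hM y Y hYpos.le hyY σ, Z, ?_, ?_, ?_⟩
    · by_contra hcon
      push Not at hcon
      have hsY : 1 ≤ Real.sqrt Y := by
        rw [Real.one_le_sqrt]
        linarith
      have hZpos : 0 < Z := by linarith
      have h1 : Real.log Z ≤ Real.log (Real.sqrt (M * Y)) := Real.log_le_log hZpos hcon.le
      rw [Real.log_sqrt (by positivity), hlogMY] at h1
      have h2 : Real.log Z / Real.log Y ≤ 1 := by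
        rw [div_le_one (by linarith)]
        linarith
      have h3 : 0 ≤ Real.log Z / Real.log Y := div_nonneg (Real.log_nonneg (by linarith)) (by linarith)
      have h4 : Real.log (Real.log Z / Real.log Y) ≤ 0 := Real.log_nonpos h3 h2
      have h5 : (0 : ℝ) ≤ ∑ l ∈ (pr Z).filter (fun l : ℕ => Real.sqrt Y < (l : ℝ) ∧ ¬ l ∣ B ∧ l ∈ P0 ∧
          ψ l (∑ j, y j • bs j) = - ε l), (1 : ℝ) / l := Finset.sum_nonneg fun _ _ => by positivity
      have h6 : b * Real.log (Real.log Z / Real.log Y) ≤ 0 := mul_nonpos_of_nonneg_of_nonpos hb.le h4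
      have h7 : 0 ≤ |C'| + b * Real.log 2 := by positivity
      linarith
    · refine hZ2.trans ?_
      refine Real.rpow_le_rpow (by linarith) ?_ (by linarith)
      rw [hlogMY]
      linarith
    · have hZ4 : Real.sqrt Y ≤ Z := hZ1
      have hsY : 1 < Real.sqrt Y := by
        rw [Real.lt_sqrt (by norm_num)]
        linarith
      have hlogZ : 0 < Real.log Z := Real.log_pos (by linarith)
      have h1 : ∑ l ∈ (pr Z).filter (fun l : ℕ => Real.sqrt (M * Y) < (l : ℝ) ∧ ¬ l ∣ B ∧ l ∈ P0 ∧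
          ψ l (∑ j, y j • bs j) = - ε l), (1 : ℝ) / l ≤
          ∑ l ∈ (pr Z).filter (fun l : ℕ => Real.sqrt Y < (l : ℝ) ∧ ¬ l ∣ B ∧ l ∈ P0 ∧
          ψ l (∑ j, y j • bs j) = - ε l), (1 : ℝ) / l := by
        refine Finset.sum_le_sum_of_subset_of_nonneg ?_ (fun _ _ _ => by positivity)
        intro l hl
        rw [mem_filter] at hl ⊢
        exact ⟨hl.1, (Real.sqrt_le_sqrt hYY).trans_lt hl.2.1, hl.2.2⟩
      have h2 : Real.log (Real.log Z / Real.log Y) =
          Real.log (Real.log Z / Real.log (M * Y)) + Real.log (Real.log (M * Y) / Real.log Y) := by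
        rw [← Real.log_mul]
        · congr 1
          have : Real.log (M * Y) ≠ 0 := by rw [hlogMY]; linarith
          field_simp
        · have : 0 < Real.log (M * Y) := by rw [hlogMY]; linarith
          positivity
        · have : 0 < Real.log (M * Y) := by rw [hlogMY]; linarith
          positivity
      have h3 : Real.log (Real.log (M * Y) / Real.log Y) ≤ Real.log 2 := by
        refine Real.log_le_log ?_ ?_
        · have : 0 < Real.log (M * Y) := by rw [hlogMY]; linarith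
          positivity
        · rw [div_le_iff₀ (by linarith), hlogMY]
          linarith
      have h4 := mul_le_mul_of_nonneg_left h3 hb.le
      have h5 := le_abs_self C'
      rw [h2, mul_add] at hZ3
      linarith)
  rw [hcard, ← hm, mul_pow] at hfin
  have hp : Real.log Y ^ A0 * M ^ m ≤ Real.log (M * Y) ^ (|A0| + 1) := by
    calc Real.log Y ^ A0 * M ^ m ≤ Real.log Y ^ |A0| * Real.log Y :=
          mul_le_mul (Real.rpow_le_rpow_of_exponent_le hlogY1.le (le_abs_self _)) hMm (by positivity)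
            (Real.rpow_nonneg (by linarith) _)
      _ = Real.log Y ^ (|A0| + 1) := by
          rw [Real.rpow_add (by linarith), Real.rpow_one]
      _ ≤ Real.log (M * Y) ^ (|A0| + 1) := by
          refine Real.rpow_le_rpow (by linarith) ?_ (by positivity)
          rw [hlogMY]
          linarith
  have h9 : (E.card : ℝ) * (Real.log Y ^ A0 * M ^ m) ≤ M ^ m * Y ^ m :=
    (mul_le_mul_of_nonneg_left hp (Nat.cast_nonneg _)).trans hfin
  have hMmpos : 0 < M ^ m := by positivity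
  have h10 : M ^ m * ((E.card : ℝ) * Real.log Y ^ A0) ≤ M ^ m * Y ^ m := by
    calc M ^ m * ((E.card : ℝ) * Real.log Y ^ A0) = (E.card : ℝ) * (Real.log Y ^ A0 * M ^ m) := by ring
      _ ≤ _ := h9
  exact le_of_mul_le_mul_left h10 hMmpos

end L

/-- a linear form which vanishes on a subgroup -/
theorem exists_phi {V : Type} [AddCommGroup V] (h2 : ∀ v : V, v + v = 0) (W : Set V) (hW : IsSub W)
    (x : V) (hx : x ∉ W) : ∃ φ : V →+ ZMod 2, (∀ s ∈ W, φ s = 0) ∧ φ x ≠ 0 := by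
  letI : Module (ZMod 2) V := AddCommGroup.zmodModule (n := 2) (by intro v; rw [two_nsmul]; exact h2 v)
  let W' : AddSubgroup V :=
    { carrier := W
      add_mem' := fun {a b} ha hb => hW.2 a ha b hb
      zero_mem' := hW.1
      neg_mem' := by
        intro a ha
        have : -a = a := by
          rw [neg_eq_iff_add_eq_zero]
          exact h2 a
        rw [this]
        exact ha }
  let W2 : Submodule (ZMod 2) V := AddSubgroup.toZModSubmodule 2 W'
  have hx' : x ∉ W2 := hx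
  obtain ⟨f, hf1, hf2⟩ := Submodule.exists_dual_map_eq_bot_of_notMem hx' inferInstance
  refine ⟨f.toAddMonoidHom, ?_, hf1⟩
  intro s hs
  have h3 : f s ∈ W2.map f := Submodule.mem_map_of_mem (show s ∈ W2 from hs)
  rw [hf2] at h3
  exact (Submodule.mem_bot _).1 h3

end Pool.Agent.Q38.ESM
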