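import Pool.Agent.Q38.ESM.Cnt

/-!
# Project ESM, job SYS, part 2: the local data
-/

set_option autoImplicit false
set_option linter.unusedSectionVars false
set_option linter.unusedVariables false

namespace Pool.Agent.Q38.ESM

open NumberField IsDedekindDomain Finset
open Pool.Agent.Q161.ESM
open Pool.Agent.Q51.EL (pr Abv N1)
open Pool.Agent.Q161.EA (Un Nice)

section K

variable {K : Type} [Field K] [NumberField K] {V : Type} [AddCommGroup V]
  [DistribMulAction (K ≃ₐ[ℚ] K) V] {ι : Type} {Lf : ι → Type} [∀ i, Field (Lf i)]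
  {em : (i : ι) → Lf i →+* K} {rp : ι → V}

/-- the orbit of `t` -/
noncomputable def orbOf (hR : Rp Lf em rp) (t : V) : ι := Classical.choose (hR.orb t).exists

theorem orbOf_spec (hR : Rp Lf em rp) (t : V) : ∃ g : K ≃ₐ[ℚ] K, g • rp (orbOf hR t) = t :=
  Classical.choose_spec (hR.orb t).exists

theorem orbOf_eq (hR : Rp Lf em rp) {t : V} {i : ι} (h : ∃ g : K ≃ₐ[ℚ] K, g • rp i = t) :
    orbOf hR t = i := (hR.orb t).unique (orbOf_spec hR t) h

theorem orbOf_rp (hR : Rp Lf em rp) (i : ι) : orbOf hR (rp i) = i :=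
  orbOf_eq hR ⟨1, one_smul _ _⟩

theorem orbOf_smul (hR : Rp Lf em rp) (g : K ≃ₐ[ℚ] K) (t : V) : orbOf hR (g • t) = orbOf hR t := by
  obtain ⟨g', hg'⟩ := orbOf_spec hR t
  exact orbOf_eq hR ⟨g * g', by rw [mul_smul, hg']⟩

theorem orbOf_iff (hR : Rp Lf em rp) (t : V) (i : ι) :
    orbOf hR t = i ↔ ∃ g : K ≃ₐ[ℚ] K, g • rp i = t := by
  constructor
  · rintro rfl
    exact orbOf_spec hR t
  · exact orbOf_eq hR

variable [∀ i, NumberField (Lf i)]

/-- the data at the prime `l` -/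
structure LD {n : ι → ℕ} (bs : (i : ι) → Module.Basis (Fin (n i)) ℤ (𝓞 (Lf i))) (rp : ι → V)
    (ev : ((i : ι) → 𝓞 (Lf i)) →+* (V → 𝓞 K)) (w : HeightOneSpectrum (𝓞 K)) (l f : ℕ)
    (F : K ≃ₐ[ℚ] K) (R : Vm n l → V → 𝓞 K ⧸ w.asIdeal) : Prop where
  lp : l.Prime
  l2 : l ≠ 2
  ab : Abv w l
  crd : Nat.card (𝓞 K ⧸ w.asIdeal) = l ^ f
  Ff : F ^ f = 1
  inj : Function.Injective R
  img : ∀ c : V → 𝓞 K ⧸ w.asIdeal, (∃ y, R y = c) ↔ ∀ s, c (F • s) = c s ^ l
  red : ∀ x : Vc n, R (rd n l x) =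
    fun s => Ideal.Quotient.mk w.asIdeal (ev (fun i => ∑ j, x i j • bs i j) s)
  cmp : ∀ (y y' : Vm n l) (i : ι), y i = y' i ↔ ∀ g : K ≃ₐ[ℚ] K, R y (g • rp i) = R y' (g • rp i)

/-- the classes which are units at the orbit `i` -/
def UR {n : ι → ℕ} (rp : ι → V) {w : HeightOneSpectrum (𝓞 K)} {l : ℕ}
    (R : Vm n l → V → 𝓞 K ⧸ w.asIdeal) (i : ι) : Set (Fin (n i) → ZMod l) :=
  {u | ∀ y : Vm n l, y i = u → ∀ g : K ≃ₐ[ℚ] K, R y (g • rp i) ≠ 0}

/-- the allowed classes -/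
def OmR [Fintype V] {n : ι → ℕ} (T : Set (V → 𝓞 K)) {w : HeightOneSpectrum (𝓞 K)} {l : ℕ}
    (F : K ≃ₐ[ℚ] K) (R : Vm n l → V → 𝓞 K ⧸ w.asIdeal) : Set (Vm n l) :=
  {y | (∀ s, R y s ≠ 0) ∨ ∃ t, R y t = 0 ∧ F • t = t ∧ (∀ s, s ≠ t → R y s ≠ 0) ∧
    ∃ z' ∈ T, z' t ∈ w.asIdeal ∧ ∀ φ : V →+ ZMod 2, (∀ s, φ (F • s) = φ s) →
      (∏ s ∈ univ.filter (fun s => φ (s - t) ≠ 0),
        R y s * Ideal.Quotient.mk w.asIdeal (z' s)) ^ ((l - 1) / 2) = 1}

variable {n : ι → ℕ} {bs : (i : ι) → Module.Basis (Fin (n i)) ℤ (𝓞 (Lf i))}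
    {ev : ((i : ι) → 𝓞 (Lf i)) →+* (V → 𝓞 K)} {w : HeightOneSpectrum (𝓞 K)} {l f : ℕ}
    {F : K ≃ₐ[ℚ] K} {R : Vm n l → V → 𝓞 K ⧸ w.asIdeal}

theorem LD.U_ne (h : LD bs rp ev w l f F R) {i : ι} {y : Vm n l} (hy : y i ∈ UR rp R i)
    (g : K ≃ₐ[ℚ] K) : R y (g • rp i) ≠ 0 := hy y rfl g

theorem LD.U_of (h : LD bs rp ev w l f F R) {i : ι} {y : Vm n l}
    (hy : ∀ g : K ≃ₐ[ℚ] K, R y (g • rp i) ≠ 0) : y i ∈ UR rp R i := by
  intro y' hy' g
  rw [(h.cmp y' y i).1 hy' g]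
  exact hy g

theorem LD.U_ne' (h : LD bs rp ev w l f F R) (hR : Rp Lf em rp) {y : Vm n l} {s : V}
    (hy : y (orbOf hR s) ∈ UR rp R (orbOf hR s)) : R y s ≠ 0 := by
  obtain ⟨g, hg⟩ := orbOf_spec hR s
  have := h.U_ne hy g
  rwa [hg] at this

theorem LD.unit [Fintype V] (h : LD bs rp ev w l f F R) (hR : Rp Lf em rp) (T : Set (V → 𝓞 K))
    (y : Vm n l) (hy : ∀ i, y i ∈ UR rp R i) : y ∈ OmR T F R := by
  left
  intro s
  exact h.U_ne' hR (hy _)

/-- the classes of integral vectors -/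
theorem rd_surj {n : ι → ℕ} {l : ℕ} (hl : l ≠ 0) (y : Vm n l) : ∃ x : Vc n, rd n l x = y := by
  haveI : NeZero l := ⟨hl⟩
  refine ⟨fun i j => ((y i j).val : ℤ), ?_⟩
  funext i j
  simp [rd]

theorem LD.add (h : LD bs rp ev w l f F R) (y y' : Vm n l) : R (y + y') = R y + R y' := by
  obtain ⟨x, rfl⟩ := rd_surj h.lp.ne_zero y
  obtain ⟨x', rfl⟩ := rd_surj h.lp.ne_zero y'
  have e1 : rd n l x + rd n l x' = rd n l (x + x') := by
    funext i j
    simp [rd]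
  rw [e1, h.red, h.red, h.red]
  funext s
  have e2 : (fun i => ∑ j, (x + x') i j • bs i j) =
      (fun i => ∑ j, x i j • bs i j) + (fun i => ∑ j, x' i j • bs i j) := by
    funext i
    simp only [Pi.add_apply, add_smul, Finset.sum_add_distrib]
  rw [e2, map_add]
  simp only [Pi.add_apply, map_add]

theorem LD.zero (h : LD bs rp ev w l f F R) : R 0 = 0 := by
  have := h.add 0 0
  rw [add_zero] at this
  exact (left_eq_add.1 this)

/-- the coordinates of `1` -/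
theorem LD.one (h : LD bs rp ev w l f F R) : ∃ y : Vm n l, ∀ s, R y s = 1 := by
  refine ⟨rd n l (fun i j => (bs i).repr 1 j), ?_⟩
  intro s
  rw [h.red]
  have e1 : (fun i => ∑ j, ((bs i).repr 1 j) • bs i j) = (1 : (i : ι) → 𝓞 (Lf i)) := by
    funext i
    rw [(bs i).sum_repr]
    rfl
  simp only [e1, map_one, Pi.one_apply]

theorem LD.nz (h : LD bs rp ev w l f F R) : (1 : 𝓞 K ⧸ w.asIdeal) ≠ 0 := by
  haveI := w.isPrime
  haveI : Nontrivial (𝓞 K ⧸ w.asIdeal) := Ideal.Quotient.nontrivial_iff.2 w.isPrime.ne_top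
  exact one_ne_zero

open Classical in
theorem LD.cU [Fintype V] [Fintype ι] [DecidableEq ι] (h : LD bs rp ev w l f F R) (hR : Rp Lf em rp) (i : ι) :
    (((UR rp R i)ᶜ.ncard : ℕ) : ℝ) * l ≤ Fintype.card V * (l : ℝ) ^ n i := by
  haveI : NeZero l := ⟨h.lp.ne_zero⟩
  haveI : Finite (𝓞 K ⧸ w.asIdeal) := Nat.finite_of_card_ne_zero (by rw [h.crd]; exact pow_ne_zero _ h.lp.ne_zero)
  -- the additive maps
  let lam : V → (Fin (n i) → ZMod l) →+ 𝓞 K ⧸ w.asIdeal := fun s =>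
    { toFun := fun u => R (Pi.single i u) s
      map_zero' := by
        rw [Pi.single_zero, h.zero]
        rfl
      map_add' := by
        intro u v
        rw [Pi.single_add, h.add]
        rfl }
  have hker : ∀ g : K ≃ₐ[ℚ] K, Nat.card (lam (g • rp i)).ker * l ≤ l ^ n i := by
    intro g
    obtain ⟨y1, hy1⟩ := h.one
    have h1 : lam (g • rp i) (y1 i) = 1 := by
      show R (Pi.single i (y1 i)) (g • rp i) = 1
      rw [(h.cmp (Pi.single i (y1 i)) y1 i).1 (by simp) g, hy1]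
    have h2 : Nat.card (lam (g • rp i)).ker * Nat.card (lam (g • rp i)).range = l ^ n i := by
      have h3 := AddSubgroup.card_eq_card_quotient_mul_card_addSubgroup (lam (g • rp i)).ker
      have h4 : Nat.card (Fin (n i) → ZMod l) = l ^ n i := by simp
      rw [h4] at h3
      rw [h3, mul_comm]
      congr 1
      exact (Nat.card_congr (QuotientAddGroup.quotientKerEquivRange (lam (g • rp i))).toEquiv).symm
    have h5 : l ∣ Nat.card (lam (g • rp i)).range := by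
      have h6 : Nat.card (lam (g • rp i)).range ∣ l ^ n i := Dvd.intro_left _ h2
      obtain ⟨m, hm, hm2⟩ := (Nat.dvd_prime_pow h.lp).1 h6
      rcases Nat.eq_zero_or_pos m with h7 | h7
      · exfalso
        rw [h7, pow_zero] at hm2
        have h8 := (Nat.card_eq_one_iff_unique.1 hm2).1
        have h9 := @Subsingleton.elim _ h8 ⟨lam (g • rp i) (y1 i), ⟨_, rfl⟩⟩ 0
        have h10 : lam (g • rp i) (y1 i) = 0 := congrArg Subtype.val h9
        rw [h1] at h10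
        exact h.nz h10
      · rw [hm2]
        exact dvd_pow_self l (by omega)
    have h11 : l ≤ Nat.card (lam (g • rp i)).range := Nat.le_of_dvd Nat.card_pos h5
    calc Nat.card (lam (g • rp i)).ker * l ≤
        Nat.card (lam (g • rp i)).ker * Nat.card (lam (g • rp i)).range := Nat.mul_le_mul_left _ h11
      _ = l ^ n i := h2
  have hsub : (UR rp R i)ᶜ ⊆ ⋃ s ∈ univ.filter (fun s : V => ∃ g : K ≃ₐ[ℚ] K, g • rp i = s),
      ((lam s).ker : Set (Fin (n i) → ZMod l)) := by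
    intro u hu
    simp only [UR, Set.mem_compl_iff, Set.mem_ofPred_eq, not_forall, not_not] at hu
    obtain ⟨y, hy, g, hg⟩ := hu
    simp only [Set.mem_iUnion]
    refine ⟨g • rp i, by simp, ?_⟩
    show R (Pi.single i u) (g • rp i) = 0
    rw [(h.cmp (Pi.single i u) y i).1 (by simp [hy]) g, hg]
  have h12 : (UR rp R i)ᶜ.ncard ≤ ∑ s ∈ univ.filter (fun s : V => ∃ g : K ≃ₐ[ℚ] K, g • rp i = s),
      ((lam s).ker : Set (Fin (n i) → ZMod l)).ncard :=
    (Set.ncard_le_ncard hsub (Set.toFinite _)).trans (Finset.set_ncard_biUnion_le _ _)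
  have h13 : (UR rp R i)ᶜ.ncard * l ≤ Fintype.card V * l ^ n i := by
    calc (UR rp R i)ᶜ.ncard * l ≤ (∑ s ∈ univ.filter (fun s : V => ∃ g : K ≃ₐ[ℚ] K, g • rp i = s),
      ((lam s).ker : Set (Fin (n i) → ZMod l)).ncard) * l := Nat.mul_le_mul_right _ h12
      _ = ∑ s ∈ univ.filter (fun s : V => ∃ g : K ≃ₐ[ℚ] K, g • rp i = s),
        ((lam s).ker : Set (Fin (n i) → ZMod l)).ncard * l := Finset.sum_mul _ _ _
      _ ≤ ∑ s ∈ univ.filter (fun s : V => ∃ g : K ≃ₐ[ℚ] K, g • rp i = s), l ^ n i := by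
          refine Finset.sum_le_sum fun s hs => ?_
          obtain ⟨g, rfl⟩ := (mem_filter.1 hs).2
          exact hker g
      _ ≤ Fintype.card V * l ^ n i := by
          rw [Finset.sum_const, smul_eq_mul]
          exact Nat.mul_le_mul_right _ (Finset.card_le_univ _)
  exact_mod_cast h13

end K

end Pool.Agent.Q38.ESM
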