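import Pool.Agent.Q38.ESM.Loc

/-!
# Project ESM, job SYS, part 3: the local densities
-/

set_option autoImplicit false
set_option linter.unusedSectionVars false
set_option linter.unusedVariables false

namespace Pool.Agent.Q38.ESM

open NumberField IsDedekindDomain Finset
open Pool.Agent.Q161.ESM
open Pool.Agent.Q51.EL (pr Abv N1)
open Pool.Agent.Q161.EA (Un Nice)

section K

variable {K : Type} [Field K] [NumberField K] {V : Type} [AddCommGroup V]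
  [DistribMulAction (K ≃ₐ[ℚ] K) V] {ι : Type} {Lf : ι → Type} [∀ i, Field (Lf i)]
  {em : (i : ι) → Lf i →+* K} {rp : ι → V} [∀ i, NumberField (Lf i)]
  {n : ι → ℕ} {bs : (i : ι) → Module.Basis (Fin (n i)) ℤ (𝓞 (Lf i))}
    {ev : ((i : ι) → 𝓞 (Lf i)) →+* (V → 𝓞 K)} {w : HeightOneSpectrum (𝓞 K)} {l f : ℕ}
    {F : K ≃ₐ[ℚ] K} {R : Vm n l → V → 𝓞 K ⧸ w.asIdeal}

theorem ev_val (hev : IsEv em rp ev) (x : (i : ι) → 𝓞 (Lf i)) (g : K ≃ₐ[ℚ] K) (i : ι) :
    ev x (g • rp i) = RingOfIntegers.mapRingHom (((g : K →ₐ[ℚ] K) : K →+* K).comp (em i)) (x i) := by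
  apply RingOfIntegers.ext
  rw [hev.eqv x g (rp i), hev.val x i]
  rfl

theorem exists_prm {L : Type} [Field L] [NumberField L] (θ : 𝓞 L →+* 𝓞 K) {l : ℕ} (hl : l ≠ 0)
    (hab : Abv w l) : ∃ v : HeightOneSpectrum (𝓞 L), Abv v l ∧
      ∀ x, x ∈ v.asIdeal ↔ θ x ∈ w.asIdeal := by
  haveI := w.isPrime
  refine ⟨⟨w.asIdeal.comap θ, Ideal.comap_isPrime _ _, ?_⟩, ?_, ?_⟩
  · intro hbot
    have h1 : (l : 𝓞 L) ∈ w.asIdeal.comap θ := by
      rw [Ideal.mem_comap, map_natCast]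
      exact hab
    rw [hbot, Ideal.mem_bot] at h1
    exact hl (by exact_mod_cast h1)
  · show (l : 𝓞 L) ∈ w.asIdeal.comap θ
    rw [Ideal.mem_comap, map_natCast]
    exact hab
  · intro x
    exact Ideal.mem_comap

open Classical in
theorem LD.nm (h : LD bs rp ev w l f F R) (hev : IsEv em rp ev) (i : ι) (x : Fin (n i) → ℤ)
    (hx : (fun j => (x j : ZMod l)) ∉ UR rp R i) :
    ∃ v : HeightOneSpectrum (𝓞 (Lf i)), Abv v l ∧ (∑ j, x j • bs i j) ∈ v.asIdeal := by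
  simp only [UR, Set.mem_ofPred_eq, not_forall, not_not] at hx
  obtain ⟨y, hy, g, hg⟩ := hx
  have h1 : R (rd n l (Pi.single i x)) (g • rp i) = 0 := by
    rw [(h.cmp (rd n l (Pi.single i x)) y i).1 (by
      rw [hy]
      funext j
      simp [rd]) g, hg]
  rw [h.red] at h1
  have h2 := Ideal.Quotient.eq_zero_iff_mem.1 h1
  rw [ev_val hev] at h2
  obtain ⟨v, hv, hv2⟩ := exists_prm (w := w)
    (RingOfIntegers.mapRingHom (((g : K →ₐ[ℚ] K) : K →+* K).comp (em i))) h.lp.ne_zero h.ab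
  refine ⟨v, hv, ?_⟩
  rw [hv2]
  simpa using h2

theorem LD.mem_iff (h : LD bs rp ev w l f F R) (x : Vc n) (s : V) :
    R (rd n l x) s = 0 ↔ ev (fun i => ∑ j, x i j • bs i j) s ∈ w.asIdeal := by
  rw [h.red]
  exact Ideal.Quotient.eq_zero_iff_mem

theorem LD.memT [Fintype V] (h : LD bs rp ev w l f F R) {T : Set (V → 𝓞 K)} (hloc : Loc w l F T) (x : Vc n)
    (hx : ev (fun i => ∑ j, x i j • bs i j) ∈ T) : rd n l x ∈ OmR T F R := by
  by_cases h0 : ∀ s, R (rd n l x) s ≠ 0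
  · left
    exact h0
  · right
    push Not at h0
    obtain ⟨t, ht⟩ := h0
    have ht' := (h.mem_iff x t).1 ht
    obtain ⟨h1, h2⟩ := hloc.one _ hx t ht'
    refine ⟨t, ht, h1, fun s hs hcon => h2 s hs ((h.mem_iff x s).1 hcon), _, hx, ht', ?_⟩
    intro φ hφ
    have h3 := hloc.two _ hx _ hx t ht' ht' φ hφ
    have h4 := Ideal.Quotient.eq_zero_iff_mem.2 h3
    rw [map_sub, map_one, map_pow, map_prod, sub_eq_zero] at h4
    rw [← h4]
    congr 1
    refine Finset.prod_congr rfl fun s _ => ?_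
    rw [map_mul, h.red]

/-- the field -/
noncomputable abbrev fld (w : HeightOneSpectrum (𝓞 K)) : Field (𝓞 K ⧸ w.asIdeal) :=
  haveI := w.isMaximal
  Ideal.Quotient.field w.asIdeal

theorem LD.fin (h : LD bs rp ev w l f F R) : Finite (𝓞 K ⧸ w.asIdeal) :=
  Nat.finite_of_card_ne_zero (by rw [h.crd]; exact pow_ne_zero _ h.lp.ne_zero)

theorem LD.toAb [Fintype V] [DecidableEq V] [DecidableEq ι] (h : LD bs rp ev w l f F R) (hR : Rp Lf em rp) {T : Set (V → 𝓞 K)}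
    (hloc : Loc w l F T) (hn : ∀ i, {t : V | ∃ g : K ≃ₐ[ℚ] K, g • rp i = t}.ncard = n i) :
    @Ab (𝓞 K ⧸ w.asIdeal) V (K ≃ₐ[ℚ] K) ι (fld w) (@Fintype.ofFinite _ h.fin) _ _ _ _ _
      n l f F (orbOf hR) R (OmR T F R) := by
  letI := fld w
  letI := @Fintype.ofFinite _ h.fin
  have hxi : ∀ t, ∃ ξ : (V →+ ZMod 2) → 𝓞 K ⧸ w.asIdeal, ∀ y ∈ OmR T F R, R y t = 0 →
      ∀ φ : V →+ ZMod 2, (∀ s, φ (F • s) = φ s) →
        (∏ s ∈ univ.filter (fun s => φ (s - t) ≠ 0), R y s) ^ ((l-1)/2) = ξ φ := by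
    intro t
    by_cases hz : ∃ z0 ∈ T, z0 t ∈ w.asIdeal
    · obtain ⟨z0, hz0, hz1⟩ := hz
      refine ⟨fun φ => (∏ s ∈ univ.filter (fun s => φ (s - t) ≠ 0),
        Ideal.Quotient.mk w.asIdeal (z0 s)) ^ ((l-1)/2), ?_⟩
      intro y hy hyt φ hφ
      rcases hy with hy | ⟨t', ht0, ht1, ht2, z', hz', hz2, hz3⟩
      · exact absurd hyt (hy t)
      · have htt : t = t' := by
          by_contra hne
          exact ht2 t hne hyt
        subst htt
        have e1 := hz3 φ hφ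
        have e2 := hloc.two z0 hz0 z' hz' t hz1 hz2 φ hφ
        have e3 := Ideal.Quotient.eq_zero_iff_mem.2 e2
        rw [map_sub, map_one, map_pow, map_prod, sub_eq_zero] at e3
        simp only [map_mul] at e3
        rw [Finset.prod_mul_distrib, mul_pow] at e1 e3
        have e4 : (∏ s ∈ univ.filter (fun s => φ (s - t) ≠ 0),
          Ideal.Quotient.mk w.asIdeal (z' s)) ^ ((l-1)/2) ≠ 0 := by
          intro hcon
          rw [hcon, mul_zero] at e1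
          exact h.nz e1.symm
        exact mul_right_cancel₀ e4 (e1.trans e3.symm)
    · refine ⟨fun _ => 0, ?_⟩
      intro y hy hyt φ hφ
      exfalso
      rcases hy with hy | ⟨t', ht0, ht1, ht2, z', hz', hz2, hz3⟩
      · exact absurd hyt (hy t)
      · have htt : t = t' := by
          by_contra hne
          exact ht2 t hne hyt
        subst htt
        exact hz ⟨z', hz', hz2⟩
  exact
  { lp := h.lp
    l2 := h.l2
    card := by rw [← Nat.card_eq_fintype_card]; exact h.crd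
    Ff := h.Ff
    inj := h.inj
    eqv := fun y s => ((h.img (R y)).1 ⟨y, rfl⟩ s)
    ob := fun g s => orbOf_smul hR g s
    cmp := by
      intro y y' i hy s hs
      obtain ⟨g, hg⟩ := (orbOf_iff hR s i).1 hs
      rw [← hg]
      exact (h.cmp y y' i).1 hy g
    nn := by
      classical
      intro i
      rw [← hn i, ← Set.ncard_coe_finset]
      congr 1
      ext s
      simp [orbOf_iff hR]
    om := by
      intro y hy
      rcases hy with hy | ⟨t', ht0, ht1, ht2, z', hz', hz2, hz3⟩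
      · exact Or.inl hy
      · exact Or.inr ⟨t', ht0, ht1, ht2⟩
    xi := hxi }

/-- `N1` as a number of fixed points -/
theorem sumN1 [Fintype V] [DecidableEq V] [DecidableEq ι] (hR : Rp Lf em rp)
    (hn1 : ∀ i, N1 (Lf i) l = {s : V | (∃ g : K ≃ₐ[ℚ] K, g • rp i = s) ∧ F • s = s}.ncard)
    (S : Finset ι) :
    ∑ i ∈ S, (N1 (Lf i) l : ℝ) =
      (((univ.filter (fun s : V => orbOf hR s ∈ S)).filter (fun s => F • s = s)).card : ℝ) := by
  classical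
  have h1 : ((univ.filter (fun s : V => orbOf hR s ∈ S)).filter (fun s => F • s = s)).card =
      ∑ i ∈ S, N1 (Lf i) l := by
    rw [Finset.card_eq_sum_card_fiberwise (f := orbOf hR) (t := S) (by
      intro s hs
      simp only [coe_filter, mem_filter, mem_univ, true_and, Set.mem_ofPred_eq] at hs
      exact hs.1)]
    refine Finset.sum_congr rfl fun i hi => ?_
    rw [hn1 i, ← Set.ncard_coe_finset]
    congr 1
    ext s
    simp only [coe_filter, mem_filter, mem_univ, true_and, Set.mem_ofPred_eq]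
    rw [← orbOf_iff hR s i]
    constructor
    · rintro ⟨⟨_, h2⟩, h3⟩
      exact ⟨h3, h2⟩
    · rintro ⟨h2, h3⟩
      exact ⟨⟨h2 ▸ hi, h3⟩, h2⟩
  rw [h1]
  push_cast
  rfl

theorem LD.dens [Fintype V] [Fintype ι] [DecidableEq ι] (hKEY : S_KEY) (hU : S_LCU) (hT : S_LCT)
    (h2 : ∀ v : V, v + v = 0) (hsemi : Semi (K ≃ₐ[ℚ] K) V)
    (hinv : ∀ v : V, (∀ g : K ≃ₐ[ℚ] K, g • v = v) → v = 0)
    (h : LD bs rp ev w l f F R) (hR : Rp Lf em rp) {T : Set (V → 𝓞 K)}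
    (hloc : Loc w l F T) (hn : ∀ i, {t : V | ∃ g : K ≃ₐ[ℚ] K, g • rp i = t}.ncard = n i)
    (hn1 : ∀ i, N1 (Lf i) l = {s : V | (∃ g : K ≃ₐ[ℚ] K, g • rp i = s) ∧ F • s = s}.ncard)
    (S : Finset ι) (hS : S.Nonempty) (z : Vm n l) (hz : ∀ i, i ∉ S → z i ∈ UR rp R i) :
    (({y | y ∈ OmR T F R ∧ ∀ i, i ∉ S → y i = z i}.ncard : ℕ) : ℝ) / (l : ℝ) ^ (∑ i ∈ S, n i) ≤
      1 - ((∑ i ∈ S, (N1 (Lf i) l : ℝ)) - 1) / l + (Fintype.card V : ℝ) ^ 2 / (l : ℝ) ^ 2 ∧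
    (F = 1 → ¬ IsSub {s : V | orbOf hR s ∈ S} →
      (({y | y ∈ OmR T F R ∧ ∀ i, i ∉ S → y i = z i}.ncard : ℕ) : ℝ) / (l : ℝ) ^ (∑ i ∈ S, n i) ≤
      1 - ((∑ i ∈ S, (N1 (Lf i) l : ℝ)) - 1 + 1 / ((Fintype.card V : ℝ) + 1)) / l +
        (Fintype.card V : ℝ) ^ 2 / (l : ℝ) ^ 2) ∧
    (F = 1 → IsSub {s : V | orbOf hR s ∈ S} →
      (∀ y ∈ OmR T F R, (∀ i, i ∉ S → y i = z i) → y (orbOf hR 0) ∈ UR rp R (orbOf hR 0)) →
      (({y | y ∈ OmR T F R ∧ ∀ i, i ∉ S → y i = z i}.ncard : ℕ) : ℝ) / (l : ℝ) ^ (∑ i ∈ S, n i) ≤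
      1 - ((∑ i ∈ S, (N1 (Lf i) l : ℝ)) - 1 + 1 / ((Fintype.card V : ℝ) + 1)) / l +
        (Fintype.card V : ℝ) ^ 2 / (l : ℝ) ^ 2) := by
  classical
  letI := fld w
  letI := @Fintype.ofFinite _ h.fin
  have hAb := h.toAb hR hloc hn
  have hz' : ∀ s, orbOf hR s ∉ S → R z s ≠ 0 := fun s hs => h.U_ne' hR (hz _ hs)
  obtain ⟨d1, d2, d3⟩ := densA hKEY hU hT h2 hsemi hinv hAb (fun i => ⟨rp i, orbOf_rp hR i⟩) S hS z hz'
  rw [sumN1 hR hn1 S]
  have hset : (((univ.filter (fun s => orbOf hR s ∈ S) : Finset V) : Set V)) = {s : V | orbOf hR s ∈ S} := by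
    ext s
    simp
  rw [hset] at d2 d3
  refine ⟨d1, d2, fun hF hsub hinc => d3 hF hsub ?_⟩
  intro y hy hyz
  exact h.U_ne' hR (hinc y hy hyz)

end K

end Pool.Agent.Q38.ESM
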